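import Mathlib

/-!
# An explicit criterion for 3 to be a primitive root of `q = 4 p² + 1`

Let `i = 2 p` modulo `q`, so `i² = -1`. The pairs `(x, y)` with `1 ≤ x ≤ p`, `0 ≤ y < p` give a quarter
system `x + i y` modulo `q` (the pinwheel of four squares of side `p` around a point). Gauss' lemma: three
times `x + i y` is `i ^ k` times an element of the quarter system with an explicit `k = kk p x y`, and the sum
of all `k` gives `3 ^ (p²) = i ^ (∑ k) = ∓ i`.
-/

set_option autoImplicit false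

namespace Pool.Agent.Lib.Reserve.MP_99cc4e_nt.Criterion

open Finset

/-- the quadrant of `3 (x + i y)` -/
def kk (p x y : ℕ) : ℕ :=
  if 3 * x ≤ p then (if 3 * y < p then 0 else if 3 * y < 2 * p then 3 else 0)
  else if 3 * x ≤ 2 * p then
    (if 3 * y < p then 1 else if 3 * y < 2 * p then 2 else if 3 * x = p + 1 then 0 else 1)
  else
    (if 3 * y < p then (if 3 * y + 1 = p then 3 else 0)
      else if 3 * y < 2 * p then (if 3 * y + 1 = 2 * p then 0 else 3)
      else if 3 * x = 2 * p + 1 then 1 else 0)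

theorem spec {F : Type} [Field F] (p : ℕ) (hI : (2 * (p : F)) ^ 2 + 1 = 0) (hp3 : ¬ 3 ∣ p)
    (x y : ℕ) (hx1 : 1 ≤ x) (hxp : x ≤ p) (hy : y < p) :
    ∃ x' y' : ℕ, (1 ≤ x' ∧ x' ≤ p) ∧ y' < p ∧
      3 * ((x : F) + 2 * p * y) = (2 * (p : F)) ^ kk p x y * ((x' : F) + 2 * p * y') := by
  have h3 : (2 * (p : F)) ^ 3 = -(2 * p) := by linear_combination (2 * (p : F)) * hI
  have h2 : (2 * (p : F)) ^ 2 = -1 := by linear_combination hI
  by_cases a : 3 * x ≤ p
  · by_cases b : 3 * y < p
    · refine ⟨3 * x, 3 * y, ⟨by omega, by omega⟩, by omega, ?_⟩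
      rw [kk, if_pos a, if_pos b]
      push_cast
      ring
    · by_cases c : 3 * y < 2 * p
      · refine ⟨2 * p - 3 * y, 3 * x - 1, ⟨by omega, by omega⟩, by omega, ?_⟩
        rw [kk, if_pos a, if_neg b, if_pos c, h3, Nat.cast_sub (by omega),
          Nat.cast_sub (by omega)]
        push_cast
        linear_combination (3 * (x : F)) * hI
      · refine ⟨3 * x - 1, 3 * y - 2 * p, ⟨by omega, by omega⟩, by omega, ?_⟩
        rw [kk, if_pos a, if_neg b, if_neg c, Nat.cast_sub (by omega),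
          Nat.cast_sub (by omega)]
        push_cast
        linear_combination hI
  · by_cases a' : 3 * x ≤ 2 * p
    · by_cases b : 3 * y < p
      · refine ⟨3 * y + 1, 2 * p - 3 * x, ⟨by omega, by omega⟩, by omega, ?_⟩
        rw [kk, if_neg a, if_pos a', if_pos b, Nat.cast_sub (by omega)]
        push_cast
        linear_combination (3 * (x : F) - 2 * p) * hI
      · by_cases c : 3 * y < 2 * p
        · refine ⟨2 * p + 1 - 3 * x, 2 * p - 1 - 3 * y, ⟨by omega, by omega⟩, by omega, ?_⟩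
          rw [kk, if_neg a, if_pos a', if_neg b, if_pos c, h2, Nat.cast_sub (by omega),
            Nat.cast_sub (by omega), Nat.cast_sub (by omega)]
          push_cast
          linear_combination hI
        · by_cases d : 3 * x = p + 1
          · refine ⟨p, 3 * y - 2 * p, ⟨by omega, by omega⟩, by omega, ?_⟩
            rw [kk, if_neg a, if_pos a', if_neg b, if_neg c, if_pos d, Nat.cast_sub (by omega)]
            have d' : (3 : F) * x = p + 1 := by exact_mod_cast congrArg (Nat.cast : ℕ → F) d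
            push_cast
            linear_combination hI + d'
          · refine ⟨3 * y - 2 * p + 1, 2 * p + 1 - 3 * x, ⟨by omega, by omega⟩, by omega, ?_⟩
            rw [kk, if_neg a, if_pos a', if_neg b, if_neg c, if_neg d, Nat.cast_add,
              Nat.cast_sub (by omega), Nat.cast_sub (by omega)]
            push_cast
            linear_combination (3 * (x : F) - 2 * p) * hI
    · by_cases b : 3 * y < p
      · by_cases c : 3 * y + 1 = p
        · refine ⟨p, 3 * x - 2 * p - 1, ⟨by omega, by omega⟩, by omega, ?_⟩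
          rw [kk, if_neg a, if_neg a', if_pos b, if_pos c, h3, Nat.cast_sub (by omega),
            Nat.cast_sub (by omega)]
          have c' : (3 : F) * y + 1 = p := by exact_mod_cast congrArg (Nat.cast : ℕ → F) c
          push_cast
          linear_combination (3 * (x : F) - 2 * p) * hI + (2 * (p : F)) * c'
        · refine ⟨3 * x - 2 * p, 3 * y + 1, ⟨by omega, by omega⟩, by omega, ?_⟩
          rw [kk, if_neg a, if_neg a', if_pos b, if_neg c, Nat.cast_sub (by omega)]
          push_cast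
          ring
      · by_cases c : 3 * y < 2 * p
        · by_cases d : 3 * y + 1 = 2 * p
          · refine ⟨3 * x - 1 - 2 * p, 0, ⟨by omega, by omega⟩, by omega, ?_⟩
            rw [kk, if_neg a, if_neg a', if_neg b, if_pos c, if_pos d, Nat.cast_sub (by omega),
              Nat.cast_sub (by omega)]
            have d' : (3 : F) * y + 1 = 2 * p := by exact_mod_cast congrArg (Nat.cast : ℕ → F) d
            push_cast
            linear_combination hI + (2 * (p : F)) * d'
          · refine ⟨2 * p - 1 - 3 * y, 3 * x - 1 - 2 * p, ⟨by omega, by omega⟩, by omega, ?_⟩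
            rw [kk, if_neg a, if_neg a', if_neg b, if_pos c, if_neg d, h3,
              Nat.cast_sub (by omega), Nat.cast_sub (by omega), Nat.cast_sub (by omega),
              Nat.cast_sub (by omega)]
            push_cast
            linear_combination (3 * (x : F) - 2 * p) * hI
        · by_cases d : 3 * x = 2 * p + 1
          · refine ⟨3 * y - 2 * p + 1, 0, ⟨by omega, by omega⟩, by omega, ?_⟩
            rw [kk, if_neg a, if_neg a', if_neg b, if_neg c, if_pos d, Nat.cast_add,
              Nat.cast_sub (by omega)]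
            have d' : (3 : F) * x = 2 * p + 1 := by exact_mod_cast congrArg (Nat.cast : ℕ → F) d
            push_cast
            linear_combination hI + d'
          · refine ⟨3 * x - 1 - 2 * p, 3 * y - 2 * p + 1, ⟨by omega, by omega⟩, by omega, ?_⟩
            rw [kk, if_neg a, if_neg a', if_neg b, if_neg c, if_neg d, Nat.cast_add,
              Nat.cast_sub (by omega), Nat.cast_sub (by omega), Nat.cast_sub (by omega)]
            push_cast
            linear_combination hI

theorem quarter (p : ℕ) (hp : 1 < p) (x y x' y' k : ℕ) (hx : 1 ≤ x) (hxp : x ≤ p) (hy : y < p)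
    (hx' : 1 ≤ x') (hxp' : x' ≤ p) (hy' : y' < p) (hk : k < 4)
    (h : ((x : ZMod (4 * p ^ 2 + 1)) + 2 * p * y)
      = (2 * (p : ZMod (4 * p ^ 2 + 1))) ^ k * (x' + 2 * p * y')) :
    x = x' ∧ y = y' := by
  have hI : (2 * (p : ZMod (4 * p ^ 2 + 1))) ^ 2 + 1 = 0 := by
    have := ZMod.natCast_self (4 * p ^ 2 + 1)
    push_cast at this
    linear_combination this
  have zx : (1 : ℤ) ≤ x := by exact_mod_cast hx
  have zxp : (x : ℤ) ≤ p := by exact_mod_cast hxp
  have zy0 : (0 : ℤ) ≤ y := by positivity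
  have zy : (y : ℤ) + 1 ≤ p := by exact_mod_cast hy
  have zx' : (1 : ℤ) ≤ x' := by exact_mod_cast hx'
  have zxp' : (x' : ℤ) ≤ p := by exact_mod_cast hxp'
  have zy0' : (0 : ℤ) ≤ y' := by positivity
  have zy' : (y' : ℤ) + 1 ≤ p := by exact_mod_cast hy'
  have zp : (2 : ℤ) ≤ p := by exact_mod_cast hp
  have key : ∀ D : ℤ, ((D : ℤ) : ZMod (4 * p ^ 2 + 1)) = 0 → |D| < 4 * (p : ℤ) ^ 2 + 1 → D = 0 := by
    intro D hD hlt
    have hdvd := (ZMod.intCast_zmod_eq_zero_iff_dvd D (4 * p ^ 2 + 1)).mp hD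
    push_cast at hdvd
    exact Int.eq_zero_of_abs_lt_dvd hdvd hlt
  have py : (p : ℤ) * y ≤ p * (p - 1) := by nlinarith
  have py' : (p : ℤ) * y' ≤ p * (p - 1) := by nlinarith
  have py0 : (0 : ℤ) ≤ p * y := by positivity
  have py0' : (0 : ℤ) ≤ p * y' := by positivity
  have px' : (p : ℤ) * x' ≤ p * p := by nlinarith
  have px0' : (p : ℤ) ≤ p * x' := by nlinarith
  interval_cases k
  · have hD := key ((x : ℤ) + 2 * p * y - (x' + 2 * p * y')) (by
      push_cast
      linear_combination h) (by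
        rw [abs_lt]
        constructor <;> nlinarith)
    have h1 : (x : ℤ) - x' = 2 * p * (y' - y) := by linarith
    have h2 : (y' : ℤ) - y = 0 := by
      by_contra hne
      rcases lt_or_gt_of_ne hne with hl | hl
      · have : (y' : ℤ) - y ≤ -1 := by omega
        nlinarith
      · have : (1 : ℤ) ≤ (y' : ℤ) - y := by omega
        nlinarith
    rw [h2] at h1
    constructor
    · have : (x : ℤ) = x' := by linarith
      exact_mod_cast this
    · have : (y : ℤ) = y' := by linarith
      exact_mod_cast this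
  · exfalso
    have hD := key ((x : ℤ) + 2 * p * y - 2 * p * x' + y') (by
      push_cast
      linear_combination h + (y' : ZMod (4 * p ^ 2 + 1)) * hI) (by
        rw [abs_lt]
        constructor <;> nlinarith)
    have h1 : (x : ℤ) + y' = 2 * p * (x' - y) := by linarith
    rcases le_or_gt ((x' : ℤ) - y) 0 with hl | hl
    · nlinarith
    · have : (1 : ℤ) ≤ (x' : ℤ) - y := by omega
      nlinarith
  · exfalso
    have hD := key ((x : ℤ) + 2 * p * y + x' + 2 * p * y') (by
      push_cast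
      linear_combination h + ((x' : ZMod (4 * p ^ 2 + 1)) + 2 * p * y') * hI) (by
        rw [abs_lt]
        constructor <;> nlinarith)
    nlinarith
  · exfalso
    have hD := key ((x : ℤ) + 2 * p * y + 2 * p * x' - y') (by
      push_cast
      linear_combination h + ((2 * (p : ZMod (4 * p ^ 2 + 1)) * (x' + 2 * p * y')) - y') * hI) (by
        rw [abs_lt]
        constructor <;> nlinarith)
    nlinarith

theorem vne (p : ℕ) (hp : 1 < p) (x y : ℕ) (hx : 1 ≤ x) (hxp : x ≤ p) (hy : y < p) :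
    ((x : ZMod (4 * p ^ 2 + 1)) + 2 * p * y) ≠ 0 := by
  intro h
  have h1 : ((x + 2 * p * y : ℕ) : ZMod (4 * p ^ 2 + 1)) = 0 := by
    push_cast
    exact h
  rw [ZMod.natCast_eq_zero_iff] at h1
  have h2 := Nat.le_of_dvd (by omega) h1
  have h3 : p * y ≤ p * p := Nat.mul_le_mul_left p hy.le
  nlinarith

theorem cst (n c : ℕ) (f : ℕ → ℕ) (h : ∀ y < n, f y = c) : ∑ y ∈ range n, f y = n * c := by
  rw [sum_congr rfl (fun y hy => h y (mem_range.mp hy)), sum_const, card_range, smul_eq_mul]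

theorem cstLast (n c d : ℕ) (f : ℕ → ℕ) (h : ∀ y < n, f y = c) (hl : f n = d) :
    ∑ y ∈ range (n + 1), f y = n * c + d := by
  rw [sum_range_succ, cst n c f h, hl]

theorem cstFirst (n c d : ℕ) (f : ℕ → ℕ) (h : ∀ y < n, f (y + 1) = c) (hl : f 0 = d) :
    ∑ y ∈ range (n + 1), f y = n * c + d := by
  rw [sum_range_succ', cst n c (fun y => f (y + 1)) h, hl]

theorem split3 (a b c A B C : ℕ) (f : ℕ → ℕ) (hA : ∑ y ∈ range a, f y = A)
    (hB : ∑ y ∈ range b, f (a + y) = B) (hC : ∑ y ∈ range c, f (a + b + y) = C) :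
    ∑ y ∈ range (a + b + c), f y = A + B + C := by
  rw [sum_range_add, sum_range_add, hA, hB, hC]

theorem total1 (t : ℕ) :
    ∑ x ∈ range (3 * t + 1), ∑ y ∈ range (3 * t + 1), kk (3 * t + 1) (x + 1) y
      = 10 * t ^ 2 + 8 * t + 3 := by
  have g1 : ∀ x < t, ∑ y ∈ range (3 * t + 1), kk (3 * t + 1) (x + 1) y = 3 * t := by
    intro x hx
    rw [show range (3 * t + 1) = range ((t + 1) + t + t) by congr 1; omega]
    rw [split3 (t + 1) t t _ _ _ _
      (cst _ 0 _ (fun y hy => by unfold kk; split_ifs <;> omega))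
      (cst _ 3 _ (fun y hy => by unfold kk; split_ifs <;> omega))
      (cst _ 0 _ (fun y hy => by unfold kk; split_ifs <;> omega))]
    ring
  have g2 : ∀ x < t, ∑ y ∈ range (3 * t + 1), kk (3 * t + 1) (t + x + 1) y = 4 * t + 1 := by
    intro x hx
    rw [show range (3 * t + 1) = range ((t + 1) + t + t) by congr 1; omega]
    rw [split3 (t + 1) t t _ _ _ _
      (cst _ 1 _ (fun y hy => by unfold kk; split_ifs <;> omega))
      (cst _ 2 _ (fun y hy => by unfold kk; split_ifs <;> omega))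
      (cst _ 1 _ (fun y hy => by unfold kk; split_ifs <;> omega))]
    ring
  have g3 : ∀ x < t, ∑ y ∈ range (3 * t + 1), kk (3 * t + 1) (t + t + (x + 1) + 1) y
      = 3 * t + 3 := by
    intro x hx
    rw [show range (3 * t + 1) = range ((t + 1) + t + t) by congr 1; omega]
    rw [split3 (t + 1) t t _ _ _ _
      (cstLast _ 0 3 _ (fun y hy => by unfold kk; split_ifs <;> omega)
        (by unfold kk; split_ifs <;> omega))
      (cst _ 3 _ (fun y hy => by unfold kk; split_ifs <;> omega))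
      (cst _ 0 _ (fun y hy => by unfold kk; split_ifs <;> omega))]
    ring
  have g4 : ∑ y ∈ range (3 * t + 1), kk (3 * t + 1) (t + t + 0 + 1) y = 4 * t + 3 := by
    rw [show range (3 * t + 1) = range ((t + 1) + t + t) by congr 1; omega]
    rw [split3 (t + 1) t t _ _ _ _
      (cstLast _ 0 3 _ (fun y hy => by unfold kk; split_ifs <;> omega)
        (by unfold kk; split_ifs <;> omega))
      (cst _ 3 _ (fun y hy => by unfold kk; split_ifs <;> omega))
      (cst _ 1 _ (fun y hy => by unfold kk; split_ifs <;> omega))]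
    ring
  have := split3 t t (t + 1) _ _ _
    (fun x => ∑ y ∈ range (3 * t + 1), kk (3 * t + 1) (x + 1) y)
    (cst t (3 * t) _ g1) (cst t (4 * t + 1) _ g2) (cstFirst t (3 * t + 3) (4 * t + 3) _ g3 g4)
  rw [show t + t + (t + 1) = 3 * t + 1 by omega] at this
  rw [this]
  ring

theorem total2 (t : ℕ) :
    ∑ x ∈ range (3 * t + 2), ∑ y ∈ range (3 * t + 2), kk (3 * t + 2) (x + 1) y
      = 10 * t ^ 2 + 12 * t + 3 := by
  have g1 : ∀ x < t, ∑ y ∈ range (3 * t + 2), kk (3 * t + 2) (x + 1) y = 3 * t + 3 := by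
    intro x hx
    rw [show range (3 * t + 2) = range ((t + 1) + (t + 1) + t) by congr 1; omega]
    rw [split3 (t + 1) (t + 1) t _ _ _ _
      (cst _ 0 _ (fun y hy => by unfold kk; split_ifs <;> omega))
      (cst _ 3 _ (fun y hy => by unfold kk; split_ifs <;> omega))
      (cst _ 0 _ (fun y hy => by unfold kk; split_ifs <;> omega))]
    ring
  have g2 : ∀ x < t, ∑ y ∈ range (3 * t + 2), kk (3 * t + 2) (t + (x + 1) + 1) y = 4 * t + 3 := by
    intro x hx
    rw [show range (3 * t + 2) = range ((t + 1) + (t + 1) + t) by congr 1; omega]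
    rw [split3 (t + 1) (t + 1) t _ _ _ _
      (cst _ 1 _ (fun y hy => by unfold kk; split_ifs <;> omega))
      (cst _ 2 _ (fun y hy => by unfold kk; split_ifs <;> omega))
      (cst _ 1 _ (fun y hy => by unfold kk; split_ifs <;> omega))]
    ring
  have g4 : ∑ y ∈ range (3 * t + 2), kk (3 * t + 2) (t + 0 + 1) y = 3 * t + 3 := by
    rw [show range (3 * t + 2) = range ((t + 1) + (t + 1) + t) by congr 1; omega]
    rw [split3 (t + 1) (t + 1) t _ _ _ _
      (cst _ 1 _ (fun y hy => by unfold kk; split_ifs <;> omega))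
      (cst _ 2 _ (fun y hy => by unfold kk; split_ifs <;> omega))
      (cst _ 0 _ (fun y hy => by unfold kk; split_ifs <;> omega))]
    ring
  have g3 : ∀ x < t + 1, ∑ y ∈ range (3 * t + 2), kk (3 * t + 2) (t + (t + 1) + x + 1) y
      = 3 * t := by
    intro x hx
    rw [show range (3 * t + 2) = range ((t + 1) + (t + 1) + t) by congr 1; omega]
    rw [split3 (t + 1) (t + 1) t _ _ _ _
      (cst _ 0 _ (fun y hy => by unfold kk; split_ifs <;> omega))
      (cstLast _ 3 0 _ (fun y hy => by unfold kk; split_ifs <;> omega)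
        (by unfold kk; split_ifs <;> omega))
      (cst _ 0 _ (fun y hy => by unfold kk; split_ifs <;> omega))]
    ring
  have := split3 t (t + 1) (t + 1) _ _ _
    (fun x => ∑ y ∈ range (3 * t + 2), kk (3 * t + 2) (x + 1) y)
    (cst t (3 * t + 3) _ g1) (cstFirst t (4 * t + 3) (3 * t + 3) _ g2 g4)
    (cst (t + 1) (3 * t) _ g3)
  rw [show t + (t + 1) + (t + 1) = 3 * t + 2 by omega] at this
  rw [this]
  ring

theorem product (p : ℕ) (hp : 1 < p) (hp3 : ¬ 3 ∣ p) (hq : (4 * p ^ 2 + 1).Prime) :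
    (3 : ZMod (4 * p ^ 2 + 1)) ^ (p ^ 2)
      = (2 * (p : ZMod (4 * p ^ 2 + 1))) ^
        (∑ x ∈ range p, ∑ y ∈ range p, kk p (x + 1) y) := by
  have : Fact (4 * p ^ 2 + 1).Prime := ⟨hq⟩
  have hI : (2 * (p : ZMod (4 * p ^ 2 + 1))) ^ 2 + 1 = 0 := by
    have := ZMod.natCast_self (4 * p ^ 2 + 1)
    push_cast at this
    linear_combination this
  have hI4 : (2 * (p : ZMod (4 * p ^ 2 + 1))) ^ 4 = 1 := by
    linear_combination ((2 * (p : ZMod (4 * p ^ 2 + 1))) ^ 2 - 1) * hI
  have h3 : (3 : ZMod (4 * p ^ 2 + 1)) ≠ 0 := by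
    intro h
    have h1 : ((3 : ℕ) : ZMod (4 * p ^ 2 + 1)) = 0 := by exact_mod_cast h
    rw [ZMod.natCast_eq_zero_iff] at h1
    have h2 := Nat.le_of_dvd (by omega) h1
    nlinarith
  have hex : ∀ s : ℕ × ℕ, s ∈ range p ×ˢ range p → ∃ s' : ℕ × ℕ, s' ∈ range p ×ˢ range p ∧
      3 * (((s.1 + 1 : ℕ) : ZMod (4 * p ^ 2 + 1)) + 2 * p * s.2)
        = (2 * (p : ZMod (4 * p ^ 2 + 1))) ^ kk p (s.1 + 1) s.2
          * (((s'.1 + 1 : ℕ) : ZMod (4 * p ^ 2 + 1)) + 2 * p * s'.2) := by
    rintro ⟨x, y⟩ hs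
    rw [mem_product, mem_range, mem_range] at hs
    obtain ⟨x', y', ⟨h1, h2⟩, h4, h5⟩ := spec (F := ZMod (4 * p ^ 2 + 1)) p hI hp3 (x + 1) y
      (by omega) (by exact hs.1) hs.2
    refine ⟨(x' - 1, y'), ?_, ?_⟩
    · rw [mem_product, mem_range, mem_range]
      exact ⟨by simp only; omega, h4⟩
    · have : x' - 1 + 1 = x' := by omega
      simp only [this]
      exact h5
  choose! σ hσ1 hσ2 using hex
  have hinj : Set.InjOn σ (↑(range p ×ˢ range p) : Set (ℕ × ℕ)) := by
    intro s hs s' hs' he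
    have e1 := hσ2 s hs
    have e2 := hσ2 s' hs'
    rw [he] at e1
    rw [mem_coe, mem_product, mem_range, mem_range] at hs hs'
    have e3 : (((s.1 + 1 : ℕ) : ZMod (4 * p ^ 2 + 1)) + 2 * p * s.2)
        = (2 * (p : ZMod (4 * p ^ 2 + 1))) ^ ((kk p (s.1 + 1) s.2 + 3 * kk p (s'.1 + 1) s'.2) % 4)
          * (((s'.1 + 1 : ℕ) : ZMod (4 * p ^ 2 + 1)) + 2 * p * s'.2) := by
      rw [← pow_eq_pow_mod _ hI4]
      apply mul_left_cancel₀ h3
      rw [e1, mul_left_comm, e2, ← mul_assoc, ← pow_add,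
        show kk p (s.1 + 1) s.2 + 3 * kk p (s'.1 + 1) s'.2 + kk p (s'.1 + 1) s'.2
          = kk p (s.1 + 1) s.2 + 4 * kk p (s'.1 + 1) s'.2 by ring, pow_add, pow_mul, hI4,
        one_pow, mul_one]
    obtain ⟨h1, h2⟩ := quarter p hp (s.1 + 1) s.2 (s'.1 + 1) s'.2 _ (by omega) (by omega) hs.2
      (by omega) (by omega) hs'.2 (Nat.mod_lt _ (by norm_num)) e3
    exact Prod.ext (by omega) h2
  have hmaps : Set.MapsTo σ (↑(range p ×ˢ range p) : Set (ℕ × ℕ))
      (↑(range p ×ˢ range p) : Set (ℕ × ℕ)) := fun s hs => mem_coe.mpr (hσ1 s (mem_coe.mp hs))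
  have hsurj := Finset.surjOn_of_injOn_of_card_le σ hmaps hinj le_rfl
  have hprod : ∏ s ∈ range p ×ˢ range p,
      (((((σ s).1 + 1 : ℕ) : ZMod (4 * p ^ 2 + 1)) + 2 * p * (σ s).2))
        = ∏ s ∈ range p ×ˢ range p,
          ((((s.1 + 1 : ℕ) : ZMod (4 * p ^ 2 + 1)) + 2 * p * s.2)) :=
    Finset.prod_nbij σ (fun s hs => hσ1 s hs) hinj hsurj (fun s _ => rfl)
  have hne : ∏ s ∈ range p ×ˢ range p,
      ((((s.1 + 1 : ℕ) : ZMod (4 * p ^ 2 + 1)) + 2 * p * s.2)) ≠ 0 := by
    rw [Finset.prod_ne_zero_iff]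
    intro s hs
    rw [mem_product, mem_range, mem_range] at hs
    exact vne p hp (s.1 + 1) s.2 (by omega) (by omega) hs.2
  have hmain : ∏ s ∈ range p ×ˢ range p,
      (3 * (((s.1 + 1 : ℕ) : ZMod (4 * p ^ 2 + 1)) + 2 * p * s.2))
      = ∏ s ∈ range p ×ˢ range p, ((2 * (p : ZMod (4 * p ^ 2 + 1))) ^ kk p (s.1 + 1) s.2
          * ((((σ s).1 + 1 : ℕ) : ZMod (4 * p ^ 2 + 1)) + 2 * p * (σ s).2)) :=
    Finset.prod_congr rfl (fun s hs => hσ2 s hs)
  rw [Finset.prod_mul_distrib, Finset.prod_mul_distrib, hprod, Finset.prod_const,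
    Finset.card_product, Finset.card_range, Finset.prod_pow_eq_pow_sum, Finset.sum_product] at hmain
  have e : (3 : ZMod (4 * p ^ 2 + 1)) ^ (p ^ 2) = 3 ^ (p * p) := congrArg _ (sq p)
  rw [e]
  exact mul_right_cancel₀ hne hmain

theorem square (p : ℕ) (hp : p.Prime) (h3p : 3 < p) (hq : (4 * p ^ 2 + 1).Prime) :
    (3 : ZMod (4 * p ^ 2 + 1)) ^ (p ^ 2)
      = if p % 3 = 1 then -(2 * (p : ZMod (4 * p ^ 2 + 1))) else 2 * p := by
  have hp3 : ¬ 3 ∣ p := by
    intro h
    rcases (Nat.dvd_prime hp).mp h with h | h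
    · omega
    · omega
  have hodd : p % 2 = 1 := by
    rcases hp.eq_two_or_odd with h | h
    · omega
    · exact h
  have hI : (2 * (p : ZMod (4 * p ^ 2 + 1))) ^ 2 + 1 = 0 := by
    have := ZMod.natCast_self (4 * p ^ 2 + 1)
    push_cast at this
    linear_combination this
  have hI4 : (2 * (p : ZMod (4 * p ^ 2 + 1))) ^ 4 = 1 := by
    linear_combination ((2 * (p : ZMod (4 * p ^ 2 + 1))) ^ 2 - 1) * hI
  rw [product p (by omega) hp3 hq, pow_eq_pow_mod _ hI4]
  by_cases h1 : p % 3 = 1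
  · rw [if_pos h1]
    obtain ⟨u, hu⟩ : ∃ u, p = 3 * (2 * u) + 1 := ⟨p / 6, by omega⟩
    have hs : (∑ x ∈ range p, ∑ y ∈ range p, kk p (x + 1) y) % 4 = 3 := by
      have := total1 (2 * u)
      rw [← hu] at this
      rw [this, show 10 * (2 * u) ^ 2 + 8 * (2 * u) + 3 = 3 + 4 * (10 * u ^ 2 + 4 * u) by ring]
      omega
    rw [hs]
    linear_combination (2 * (p : ZMod (4 * p ^ 2 + 1))) * hI
  · rw [if_neg h1]
    obtain ⟨u, hu⟩ : ∃ u, p = 3 * (2 * u + 1) + 2 := ⟨p / 6, by omega⟩
    have hs : (∑ x ∈ range p, ∑ y ∈ range p, kk p (x + 1) y) % 4 = 1 := by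
      have := total2 (2 * u + 1)
      rw [← hu] at this
      rw [this, show 10 * (2 * u + 1) ^ 2 + 12 * (2 * u + 1) + 3
        = 1 + 4 * (10 * u ^ 2 + 16 * u + 6) by ring]
      omega
    rw [hs, pow_one]

theorem result (p : ℕ) (hp : p.Prime) (h3p : 3 < p) (hq : (4 * p ^ 2 + 1).Prime) :
    (3 : ZMod (4 * p ^ 2 + 1)) ^ (p ^ 2)
        = (if p % 3 = 1 then -(2 * (p : ZMod (4 * p ^ 2 + 1))) else 2 * p) ∧
      (orderOf (3 : ZMod (4 * p ^ 2 + 1)) ≠ 4 * p ^ 2 ↔
        (3 : ZMod (4 * p ^ 2 + 1)) ^ p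
          = if p % 12 = 1 ∨ p % 12 = 11 then -(2 * (p : ZMod (4 * p ^ 2 + 1))) else 2 * p) ∧
      (orderOf (3 : ZMod (4 * p ^ 2 + 1)) ≠ 4 * p ^ 2 ↔ 4 * p ^ 2 + 1 ∣ 9 ^ p + 1) := by
  have : Fact (4 * p ^ 2 + 1).Prime := ⟨hq⟩
  have hsq := square p hp h3p hq
  have hodd : p % 2 = 1 := by
    rcases hp.eq_two_or_odd with h | h
    · omega
    · exact h
  have hp3 : p % 3 ≠ 0 := by
    intro h
    rcases (Nat.dvd_prime hp).mp (Nat.dvd_of_mod_eq_zero h) with h | h
    · omega
    · omega
  have hI : (2 * (p : ZMod (4 * p ^ 2 + 1))) ^ 2 + 1 = 0 := by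
    have := ZMod.natCast_self (4 * p ^ 2 + 1)
    push_cast at this
    linear_combination this
  have hIm : ∀ m : ℕ, (2 * (p : ZMod (4 * p ^ 2 + 1))) ^ (2 * m) = (-1) ^ m := by
    intro m
    rw [pow_mul, show (2 * (p : ZMod (4 * p ^ 2 + 1))) ^ 2 = -1 by linear_combination hI]
  have hI0 : (2 * (p : ZMod (4 * p ^ 2 + 1))) ≠ 0 := by
    intro h
    rw [h] at hI
    norm_num at hI
  have htwo : (2 : ZMod (4 * p ^ 2 + 1)) ≠ 0 := by
    intro h
    rw [h] at hI0
    exact hI0 (by ring)
  have hne1 : (-1 : ZMod (4 * p ^ 2 + 1)) ≠ 1 := by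
    intro h
    apply htwo
    linear_combination -h
  have h2p2 : (3 : ZMod (4 * p ^ 2 + 1)) ^ (2 * p ^ 2) = -1 := by
    have e : (3 : ZMod (4 * p ^ 2 + 1)) ^ (2 * p ^ 2) = (3 ^ (p ^ 2)) ^ 2 := by
      rw [← pow_mul]
      congr 1
      ring
    rw [e, hsq]
    split_ifs
    · linear_combination hI
    · linear_combination hI
  have h4p2 : (3 : ZMod (4 * p ^ 2 + 1)) ^ (4 * p ^ 2) = 1 := by
    have e : (3 : ZMod (4 * p ^ 2 + 1)) ^ (4 * p ^ 2) = (3 ^ (2 * p ^ 2)) ^ 2 := by
      rw [← pow_mul]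
      congr 1
      ring
    rw [e, h2p2]
    ring
  have hA : orderOf (3 : ZMod (4 * p ^ 2 + 1)) ≠ 4 * p ^ 2 ↔
      (3 : ZMod (4 * p ^ 2 + 1)) ^ (2 * p) = -1 := by
    constructor
    · intro hne
      by_contra hcon
      apply hne
      have h4p : (3 : ZMod (4 * p ^ 2 + 1)) ^ (4 * p) ≠ 1 := by
        intro h
        have h1 : ((3 : ZMod (4 * p ^ 2 + 1)) ^ (2 * p) - 1) * (3 ^ (2 * p) + 1) = 0 := by
          have : (3 : ZMod (4 * p ^ 2 + 1)) ^ (2 * p) * 3 ^ (2 * p) = 1 := by
            rw [← pow_add, ← h]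
            congr 1
            ring
          linear_combination this
        rcases mul_eq_zero.mp h1 with h2 | h2
        · have h3 : (3 : ZMod (4 * p ^ 2 + 1)) ^ (2 * p) = 1 := by linear_combination h2
          apply hne1
          rw [← h2p2, show 2 * p ^ 2 = (2 * p) * p by ring, pow_mul, h3, one_pow]
        · exact hcon (by linear_combination h2)
      apply orderOf_eq_of_pow_and_pow_div_prime (by positivity) h4p2
      intro r hr hdvd
      have hr' : r = 2 ∨ r = p := by
        rcases (hr.dvd_mul).mp hdvd with h | h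
        · left
          have : r ∣ 2 ^ 2 := by simpa using h
          exact (Nat.prime_dvd_prime_iff_eq hr Nat.prime_two).mp (hr.dvd_of_dvd_pow this)
        · right
          exact (Nat.prime_dvd_prime_iff_eq hr hp).mp (hr.dvd_of_dvd_pow h)
      rcases hr' with rfl | rfl
      · rw [show 4 * p ^ 2 / 2 = 2 * p ^ 2 by omega, h2p2]
        exact hne1
      · rw [show 4 * r ^ 2 / r = 4 * r from
          Nat.div_eq_of_eq_mul_right hp.pos (by ring)]
        exact h4p
    · intro h hord
      have h4p : (3 : ZMod (4 * p ^ 2 + 1)) ^ (4 * p) = 1 := by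
        rw [show 4 * p = (2 * p) * 2 by ring, pow_mul, h]
        ring
      have hd := orderOf_dvd_of_pow_eq_one h4p
      rw [hord] at hd
      have := Nat.le_of_dvd (by omega) hd
      nlinarith
  have hB : (3 : ZMod (4 * p ^ 2 + 1)) ^ (2 * p) = -1 ↔ 4 * p ^ 2 + 1 ∣ 9 ^ p + 1 := by
    rw [← ZMod.natCast_eq_zero_iff]
    push_cast
    rw [show (9 : ZMod (4 * p ^ 2 + 1)) = 3 ^ 2 by norm_num, ← pow_mul]
    constructor
    · intro h
      rw [h]
      ring
    · intro h
      linear_combination h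
  have hC : (3 : ZMod (4 * p ^ 2 + 1)) ^ (2 * p) = -1 ↔ (3 : ZMod (4 * p ^ 2 + 1)) ^ p
          = if p % 12 = 1 ∨ p % 12 = 11 then -(2 * (p : ZMod (4 * p ^ 2 + 1))) else 2 * p := by
    constructor
    · intro h
      have h1 : ((3 : ZMod (4 * p ^ 2 + 1)) ^ p - 2 * p) * (3 ^ p + 2 * p) = 0 := by
        have : (3 : ZMod (4 * p ^ 2 + 1)) ^ p * 3 ^ p = -1 := by
          rw [← pow_add, ← h]
          congr 1
          ring
        linear_combination this - hI
      have hpp : (3 : ZMod (4 * p ^ 2 + 1)) ^ (p ^ 2) = (3 ^ p) ^ p := by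
        rw [← pow_mul]
        congr 1
        ring
      rw [hpp] at hsq
      have hcases : p % 12 = 1 ∨ p % 12 = 5 ∨ p % 12 = 7 ∨ p % 12 = 11 := by omega
      have hIp : (2 * (p : ZMod (4 * p ^ 2 + 1))) ^ p
          = if p % 4 = 1 then 2 * (p : ZMod (4 * p ^ 2 + 1)) else -(2 * p) := by
        rcases Nat.even_or_odd (p / 2) with he | he
        · have h4 : p % 4 = 1 := by
            have := Nat.even_iff.mp he
            omega
          rw [if_pos h4]
          calc (2 * (p : ZMod (4 * p ^ 2 + 1))) ^ p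
              = (2 * (p : ZMod (4 * p ^ 2 + 1))) ^ (2 * (2 * (p / 4)) + 1) := by
                congr 1; omega
            _ = 2 * (p : ZMod (4 * p ^ 2 + 1)) := by
                rw [pow_succ (2 * (p : ZMod (4 * p ^ 2 + 1))) (2 * (2 * (p / 4))), hIm, pow_mul,
                  neg_one_sq, one_pow, one_mul]
        · have h4 : ¬ p % 4 = 1 := by
            have := Nat.odd_iff.mp he
            omega
          rw [if_neg h4]
          calc (2 * (p : ZMod (4 * p ^ 2 + 1))) ^ p
              = (2 * (p : ZMod (4 * p ^ 2 + 1))) ^ (2 * (2 * (p / 4) + 1) + 1) := by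
                congr 1; omega
            _ = -(2 * (p : ZMod (4 * p ^ 2 + 1))) := by
                rw [pow_succ (2 * (p : ZMod (4 * p ^ 2 + 1))) (2 * (2 * (p / 4) + 1)), hIm,
                  pow_succ (-1 : ZMod (4 * p ^ 2 + 1)) (2 * (p / 4)), pow_mul,
                  neg_one_sq, one_pow]
                ring
      have hself : (2 * (p : ZMod (4 * p ^ 2 + 1))) ≠ -(2 * p) := by
        intro h
        have : (2 : ZMod (4 * p ^ 2 + 1)) * (2 * p) = 0 := by linear_combination h
        rcases mul_eq_zero.mp this with h | h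
        · exact htwo h
        · exact hI0 h
      rcases mul_eq_zero.mp h1 with h2 | h2
      · have h3 : (3 : ZMod (4 * p ^ 2 + 1)) ^ p = 2 * p := by linear_combination h2
        rw [h3, hIp] at hsq
        rw [h3]
        by_cases c : p % 12 = 1 ∨ p % 12 = 11
        · exfalso
          rcases c with c | c
          · rw [if_pos (show p % 4 = 1 by omega), if_pos (show p % 3 = 1 by omega)] at hsq
            exact hself hsq
          · rw [if_neg (show ¬ p % 4 = 1 by omega), if_neg (show ¬ p % 3 = 1 by omega)] at hsq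
            exact hself hsq.symm
        · rw [if_neg c]
      · have h3 : (3 : ZMod (4 * p ^ 2 + 1)) ^ p = -(2 * p) := by linear_combination h2
        rw [h3, Odd.neg_pow (Nat.odd_iff.mpr hodd), hIp] at hsq
        rw [h3]
        by_cases c : p % 12 = 1 ∨ p % 12 = 11
        · rw [if_pos c]
        · exfalso
          have c' : p % 12 = 5 ∨ p % 12 = 7 := by omega
          rcases c' with c | c
          · rw [if_pos (show p % 4 = 1 by omega), if_neg (show ¬ p % 3 = 1 by omega)] at hsq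
            exact hself hsq.symm
          · rw [if_neg (show ¬ p % 4 = 1 by omega), if_pos (show p % 3 = 1 by omega)] at hsq
            exact hself (by linear_combination hsq)
    · intro h
      have e : (3 : ZMod (4 * p ^ 2 + 1)) ^ (2 * p) = (3 ^ p) ^ 2 := by
        rw [← pow_mul]
        congr 1
        ring
      rw [e, h]
      split_ifs
      · linear_combination hI
      · linear_combination hI
  exact ⟨hsq, hA.trans hC, hA.trans hB⟩

end Pool.Agent.Lib.Reserve.MP_99cc4e_nt.Criterion
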